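import Pool.Agent.T4h91.TR.Thr

set_option autoImplicit false

/-!
# MP_491344_nt: density thresholds for sets with many biased elements

`rep A n = 1_A * 1_A(n)` is the number of ordered pairs `(a, b) ∈ A × A` with `a + b = n`, and
`seg A N = A ∩ [1, N]`.

A function `φ : ℕ → ℂ` is primitive modulo `q` (`Prim q φ`) if it has period `q`, mean square at most
one, and its sums over the residue classes modulo `d` vanish for all proper divisors `d` of `q`.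
Examples: primitive Dirichlet characters; for a prime `q` all functions with mean zero and mean square
at most one.

Let `Q ⊆ [1, √N]`, `φ_q` primitive modulo `q`, `δ_q ≥ 0`, `L = ∑_{q ∈ Q} δ_q⁴ / φ(q)` and call `a` biased if
`|∑_{q ∈ Q} δ_q³ φ_q(a) / φ(q)| ≥ c L`.

1. The number `b` of the biased elements of `A` up to `N` satisfies `c⁴ L b² ≤ 73728 N rep A n` for some
   `n ≤ 2 N`.
2. Let `Q`, `φ_q`, `δ_q`, `L = L_N` depend on `N`, let `g > 0` and `|seg A N| ≫ √N / g(N)`. If for every `T`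
   there are infinitely many `N` such that `T g(N)² ≤ L_N` and at least `ε |seg A N|` elements of `seg A N`
   are biased, then `rep A` is unbounded.
3. All moduli: let `φ_q` be primitive modulo `q` for `q ≤ √N` (they may depend on `N`), `δ, ε > 0`. Every
   `g > 0` with `g(N)² = o(log N)` forces unbounded representations inside the class of all sets `A` such that
   for infinitely many `N` at least `ε |seg A N|` of the elements `a` of `seg A N` satisfy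
   `|∑_{q ≤ √N} φ_q(a) / φ(q)| ≥ δ ∑_{q ≤ √N} 1 / φ(q)`.

For the primes only, and for the distribution of the whole set `A ∩ [1, N]` modulo `p`, the starting file
`NonuniformThresholds` has thresholds with `g(N)⁴` in place of `g(N)²`.
-/

open Finset Filter Topology

namespace Pool.Agent.Results.MP_491344_nt.BiasedThresholds

/-- the number of ordered pairs `(a, b)` of elements of `A` with `a + b = n` -/
noncomputable def rep (A : Set ℕ) (n : ℕ) : ℕ :=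
  Set.ncard {p : ℕ × ℕ | p.1 ∈ A ∧ p.2 ∈ A ∧ p.1 + p.2 = n}

open Classical in
/-- the elements of `A` in `[1, N]` -/
noncomputable def seg (A : Set ℕ) (N : ℕ) : Finset ℕ := (Icc 1 N).filter (· ∈ A)

/-- `|A ∩ [1, N]| ≫ √N / g(N)` -/
def Dense (g : ℕ → ℝ) (A : Set ℕ) : Prop :=
  ∃ C : ℝ, 0 < C ∧ ∀ᶠ N : ℕ in atTop, Real.sqrt N / g N ≤ C * ((seg A N).card : ℝ)

/-- `φ` is a primitive function modulo `q`: it has period `q` and mean square at most one, and for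
every proper divisor `d` of `q` its sums over the residue classes modulo `d` vanish. -/
structure Prim (q : ℕ) (φ : ℕ → ℂ) : Prop where
  per : ∀ n, φ (n % q) = φ n
  msq : ∑ x ∈ range q, ‖φ x‖ ^ 2 ≤ q
  prim : ∀ d : ℕ, d ∣ q → d ≠ q → ∀ y : ℕ, ∑ x ∈ (range q).filter (fun x => x % d = y), φ x = 0

/-- `L = ∑ δ_q⁴ / φ(q)` -/
noncomputable def LL (Q : Finset ℕ) (δ : ℕ → ℝ) : ℝ := ∑ q ∈ Q, δ q ^ 4 / (Nat.totient q : ℝ)

/-- `∑ δ_q³ φ_q(n) / φ(q)` -/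
noncomputable def SS (Q : Finset ℕ) (δ : ℕ → ℝ) (φ : ℕ → ℕ → ℂ) (n : ℕ) : ℂ :=
  ∑ q ∈ Q, ((δ q ^ 3 / (Nat.totient q : ℝ) : ℝ) : ℂ) * φ q n

theorem toP {q : ℕ} {φ : ℕ → ℂ} (h : Prim q φ) : Pool.Agent.T4h91.BR.Prim q φ :=
  ⟨h.per, h.msq, h.prim⟩

theorem ofP {q : ℕ} {φ : ℕ → ℂ} (h : Pool.Agent.T4h91.BR.Prim q φ) : Prim q φ :=
  ⟨h.per, h.msq, h.prim⟩

theorem result :
    -- examples of primitive functions
    (∀ (q : ℕ) (χ : DirichletCharacter ℂ q), 0 < q → χ.IsPrimitive →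
      Prim q (fun n => χ (n : ZMod q))) ∧
    (∀ (p : ℕ) (ψ : ℕ → ℂ), p.Prime → (∀ n, ψ (n % p) = ψ n) → ∑ x ∈ range p, ψ x = 0 →
      ∑ x ∈ range p, ‖ψ x‖ ^ 2 ≤ p → Prim p ψ) ∧
    -- 1. the number of biased elements
    (∀ (A : Set ℕ) (N : ℕ) (Q : Finset ℕ) (φ : ℕ → ℕ → ℂ) (δ : ℕ → ℝ) (c : ℝ),
      Q ⊆ Icc 1 (Nat.sqrt N) → (∀ q ∈ Q, Prim q (φ q)) → (∀ q, 0 ≤ δ q) → 0 < c →
      ∃ n, n ≤ 2 * N ∧ c ^ 4 * LL Q δ *
        (({a : ℕ | a ∈ A ∧ 1 ≤ a ∧ a ≤ N ∧ c * LL Q δ ≤ ‖SS Q δ φ a‖}.ncard : ℕ) : ℝ) ^ 2 ≤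
          73728 * N * (rep A n : ℝ)) ∧
    -- 2. thresholds
    (∀ (A : Set ℕ) (g : ℕ → ℝ) (Q : ℕ → Finset ℕ) (φ : ℕ → ℕ → ℕ → ℂ) (δ : ℕ → ℕ → ℝ) (c ε : ℝ),
      (∀ᶠ N in atTop, 0 < g N) → Dense g A → (∀ N, Q N ⊆ Icc 1 (Nat.sqrt N)) →
      (∀ N, ∀ q ∈ Q N, Prim q (φ N q)) → (∀ N q, 0 ≤ δ N q) → 0 < c → 0 < ε →
      (∀ T : ℝ, ∃ᶠ N : ℕ in atTop, T * g N ^ 2 ≤ LL (Q N) (δ N) ∧
        ε * ((seg A N).card : ℝ) ≤ (({a : ℕ | a ∈ A ∧ 1 ≤ a ∧ a ≤ N ∧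
          c * LL (Q N) (δ N) ≤ ‖SS (Q N) (δ N) (φ N) a‖}.ncard : ℕ) : ℝ)) →
      ∀ K : ℕ, ∃ n, K < rep A n) ∧
    -- 3. all moduli
    (∀ (g : ℕ → ℝ) (φ : ℕ → ℕ → ℕ → ℂ) (δ ε : ℝ), (∀ᶠ N in atTop, 0 < g N) →
      Tendsto (fun N : ℕ => Real.log N / g N ^ 2) atTop atTop →
      (∀ N, ∀ q, 1 ≤ q → Prim q (φ N q)) → 0 < δ → 0 < ε →
      ∀ A : Set ℕ, Dense g A →
      (∃ᶠ N : ℕ in atTop, ε * ((seg A N).card : ℝ) ≤ (({a : ℕ | a ∈ A ∧ 1 ≤ a ∧ a ≤ N ∧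
        δ * ∑ q ∈ Icc 1 (Nat.sqrt N), 1 / (Nat.totient q : ℝ) ≤
          ‖∑ q ∈ Icc 1 (Nat.sqrt N), φ N q a / (Nat.totient q : ℂ)‖}.ncard : ℕ) : ℝ)) →
      ∀ K : ℕ, ∃ n, K < rep A n) := by
  refine ⟨?_, ?_, ?_, ?_, ?_⟩
  · intro q χ hq hχ
    exact ofP (Pool.Agent.T4h91.BR.prim_char hq χ hχ)
  · intro p ψ hp h1 h2 h3
    exact ofP (Pool.Agent.T4h91.BR.prim_prime hp ψ h1 h2 h3)
  · intro A N Q φ δ c hQ hφ hδ hc
    exact Pool.Agent.T4h91.TR.thr_ineq A N Q hQ φ (fun q hq => toP (hφ q hq)) δ hδ c hc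
  · intro A g Q φ δ c ε hg hA hQ hφ hδ hc hε hB K
    exact Pool.Agent.T4h91.TR.thr A g hg hA Q hQ φ (fun N q hq => toP (hφ N q hq)) δ hδ c ε hc hε hB K
  · intro g φ δ ε hg hlim hφ hδ hε A hA hB K
    exact Pool.Agent.T4h91.TR.thr_all A g hg hA hlim φ (fun N q hq => toP (hφ N q hq)) δ ε hδ hε hB K

end Pool.Agent.Results.MP_491344_nt.BiasedThresholds
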